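import Pool.Agent.Y528.KL.KDefs

/-!
# The base cases of the Kneser-Lovász theorem in Frege systems
-/

set_option autoImplicit false

namespace Pool.Agent.Y287.KL.BC

open Pool.Agent.H555R2.PF Pool.Agent.H555R2.PF.Fm Pool.Agent.TH677.EF Pool.Agent.Y528.KL

theorem psize_map_bd {α : Type} (f : α → Fm) (s : ℕ) : ∀ l : List α, (∀ x ∈ l, (f x).size ≤ s) →
    psize (l.map f) ≤ l.length * s
  | [], _ => by simp [psize]
  | x :: l, h => by
    have h1 := psize_map_bd f s l fun y hy => h y (by simp [hy])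
    have h2 := h x (by simp)
    rw [List.map_cons, psize_cons, List.length_cons]
    nlinarith

theorem AND_map_size {α : Type} (f : α → Fm) (s : ℕ) (l : List α) (h : ∀ x ∈ l, (f x).size ≤ s) :
    (AND (l.map f)).size ≤ l.length * (s + 1) + 3 := by
  have := psize_map_bd f s l h
  rw [AND_size, List.length_map]
  nlinarith

theorem OR_map_size {α : Type} (f : α → Fm) (s : ℕ) (l : List α) (h : ∀ x ∈ l, (f x).size ≤ s) :
    (OR (l.map f)).size ≤ l.length * (s + 1) + 4 := by
  have := psize_map_bd f s l h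
  rw [OR_size, List.length_map]
  nlinarith

/-- the colours of `T` -/
def LI (m : ℕ) (T : Finset ℕ) : List ℕ := (List.range m).filter fun i => i ∈ T

/-- the `k`-subsets of `N` -/
noncomputable def LS (k n : ℕ) (N : Finset ℕ) : List (Finset ℕ) := (subs k n).filter fun S => S ⊆ N

/-- the pairs of disjoint `k`-subsets of `N` -/
noncomputable def LP (k n : ℕ) (N : Finset ℕ) : List (Finset ℕ × Finset ℕ) :=
  (disj k n).filter fun P => P.1 ⊆ N ∧ P.2 ⊆ N

noncomputable def A1 (k n m : ℕ) (N T : Finset ℕ) : Fm :=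
  AND ((LS k n N).map fun S => OR ((LI m T).map fun i => pv S i))

noncomputable def A2 (k n m : ℕ) (N T : Finset ℕ) : Fm :=
  AND ((LP k n N).map fun P => AND ((LI m T).map fun i => neg (and (pv P.1 i) (pv P.2 i))))

theorem mem_LI {m : ℕ} {T : Finset ℕ} (hT : T ⊆ Finset.range m) (i : ℕ) : i ∈ LI m T ↔ i ∈ T := by
  unfold LI
  simp only [List.mem_filter, List.mem_range, decide_eq_true_eq]
  exact ⟨fun h => h.2, fun h => ⟨Finset.mem_range.1 (hT h), h⟩⟩

theorem mem_subs {k n : ℕ} (S : Finset ℕ) : S ∈ subs k n ↔ S ⊆ Finset.range n ∧ S.card = k := by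
  unfold subs
  rw [Finset.mem_toList, Finset.mem_powersetCard]

theorem mem_LS {k n : ℕ} {N : Finset ℕ} (hN : N ⊆ Finset.range n) (S : Finset ℕ) :
    S ∈ LS k n N ↔ S ⊆ N ∧ S.card = k := by
  unfold LS
  simp only [List.mem_filter, mem_subs, decide_eq_true_eq]
  exact ⟨fun h => ⟨h.2, h.1.2⟩, fun h => ⟨⟨h.1.trans hN, h.2⟩, h.1⟩⟩

theorem mem_LP {k n : ℕ} {N : Finset ℕ} (hN : N ⊆ Finset.range n) (P : Finset ℕ × Finset ℕ) :
    P ∈ LP k n N ↔ (P.1 ⊆ N ∧ P.1.card = k) ∧ (P.2 ⊆ N ∧ P.2.card = k) ∧ Disjoint P.1 P.2 := by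
  unfold LP disj
  simp only [List.mem_filter, decide_eq_true_eq]
  rw [show P ∈ (subs k n).product (subs k n) ↔ P.1 ∈ subs k n ∧ P.2 ∈ subs k n from
    List.mem_product]
  rw [mem_subs, mem_subs]
  constructor
  · rintro ⟨⟨⟨h1, h2⟩, h3⟩, h4, h5⟩
    exact ⟨⟨h4, h1.2⟩, ⟨h5, h2.2⟩, h3⟩
  · rintro ⟨⟨h1, h2⟩, ⟨h3, h4⟩, h5⟩
    exact ⟨⟨⟨⟨h1.trans hN, h2⟩, h3.trans hN, h4⟩, h5⟩, h1, h3⟩

/-- the closed formula is a tautology -/
theorem taut (h : T_KN) {k n m : ℕ} (hk : 1 ≤ k) {N T : Finset ℕ} (hN : N ⊆ Finset.range n)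
    (hT : T ⊆ Finset.range m) (hc : N.card + 1 = T.card + 2 * k) (v : ℕ → Prop) :
    (neg (and (A1 k n m N T) (A2 k n m N T))).eval v := by
  classical
  simp only [eval]
  rintro ⟨h1, h2⟩
  unfold A1 at h1
  unfold A2 at h2
  rw [AND_eval] at h1 h2
  have h3 : ∀ S : Finset ℕ, S ⊆ N → S.card = k → ∃ i ∈ T, (pv S i).eval v := by
    intro S hS hSk
    have := h1 _ (List.mem_map.2 ⟨S, (mem_LS hN S).2 ⟨hS, hSk⟩, rfl⟩)
    rw [OR_eval] at this
    obtain ⟨A, hA, hv⟩ := this
    obtain ⟨i, hi, rfl⟩ := List.mem_map.1 hA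
    exact ⟨i, (mem_LI hT i).1 hi, hv⟩
  have h4 : ∀ S S' : Finset ℕ, S ⊆ N → S.card = k → S' ⊆ N → S'.card = k → Disjoint S S' →
      ∀ i ∈ T, (pv S i).eval v → (pv S' i).eval v → False := by
    intro S S' hS hSk hS' hSk' hd i hi g1 g2
    have := h2 _ (List.mem_map.2 ⟨(S, S'), (mem_LP hN (S, S')).2 ⟨⟨hS, hSk⟩, ⟨hS', hSk'⟩, hd⟩, rfl⟩)
    rw [AND_eval] at this
    have := this _ (List.mem_map.2 ⟨i, (mem_LI hT i).2 hi, rfl⟩)
    exact this ⟨g1, g2⟩
  -- the relabelling
  let f : ℕ → ℕ := fun j => if hj : j < N.card then (N.equivFin.symm ⟨j, hj⟩ : ℕ) else 0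
  have hf : ∀ j, (hj : j < N.card) → f j = (N.equivFin.symm ⟨j, hj⟩ : ℕ) := fun j hj => by
    simp only [f, dif_pos hj]
  have hfN : ∀ j < N.card, f j ∈ N := fun j hj => by
    rw [hf j hj]
    exact (N.equivFin.symm ⟨j, hj⟩).2
  have hfi : Set.InjOn f (Finset.range N.card : Set ℕ) := by
    intro j hj j' hj' he
    rw [Finset.coe_range, Set.mem_Iio] at hj hj'
    rw [hf j hj, hf j' hj'] at he
    have := N.equivFin.symm.injective (Subtype.ext he)
    simpa using this
  let g : ℕ → ℕ := fun i => if hi : i ∈ T then (T.equivFin ⟨i, hi⟩ : ℕ) else 0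
  have hg : ∀ i, (hi : i ∈ T) → g i = (T.equivFin ⟨i, hi⟩ : ℕ) := fun i hi => by
    simp only [g, dif_pos hi]
  have hgT : ∀ i ∈ T, g i < T.card := fun i hi => by
    rw [hg i hi]
    exact (T.equivFin ⟨i, hi⟩).2
  have hgi : ∀ i ∈ T, ∀ j ∈ T, g i = g j → i = j := by
    intro i hi j hj he
    rw [hg i hi, hg j hj] at he
    have := T.equivFin.injective (Fin.ext he)
    simpa using this
  have himg : ∀ S : Finset ℕ, S ⊆ Finset.range N.card → S.card = k →
      S.image f ⊆ N ∧ (S.image f).card = k := by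
    intro S hS hSk
    constructor
    · intro x hx
      obtain ⟨j, hj, rfl⟩ := Finset.mem_image.1 hx
      exact hfN j (Finset.mem_range.1 (hS hj))
    · rw [Finset.card_image_of_injOn (hfi.mono (by exact_mod_cast hS)), hSk]
  let c : Finset ℕ → ℕ := fun S => if hS : S ⊆ N ∧ S.card = k then (h3 S hS.1 hS.2).choose else 0
  have hcS : ∀ S : Finset ℕ, S ⊆ N → S.card = k → c S ∈ T ∧ (pv S (c S)).eval v := by
    intro S hS hSk
    have : c S = (h3 S hS hSk).choose := by
      simp only [c, dif_pos (And.intro hS hSk)]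
    rw [this]
    exact (h3 S hS hSk).choose_spec
  obtain ⟨S, S', hS, hS', hSk, hSk', hd, he⟩ := h k T.card N.card hk (by omega)
    (fun S => g (c (S.image f))) (fun S hS hSk => hgT _ (hcS _ (himg S hS hSk).1 (himg S hS hSk).2).1)
  have i1 := himg S hS hSk
  have i2 := himg S' hS' hSk'
  have c1 := hcS _ i1.1 i1.2
  have c2 := hcS _ i2.1 i2.2
  have e1 := hgi _ c1.1 _ c2.1 he
  have hdd : Disjoint (S.image f) (S'.image f) := by
    rw [Finset.disjoint_left]
    intro x hx hx'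
    obtain ⟨j, hj, rfl⟩ := Finset.mem_image.1 hx
    obtain ⟨j', hj', he'⟩ := Finset.mem_image.1 hx'
    have := hfi (by exact_mod_cast hS' hj') (by exact_mod_cast hS hj) he'
    subst this
    exact Finset.disjoint_left.1 hd hj hj'
  exact h4 _ _ i1.1 i1.2 i2.1 i2.2 hdd _ c1.1 c1.2 (e1 ▸ c2.2)

/-! ### sizes -/

theorem LI_length (m : ℕ) (T : Finset ℕ) : (LI m T).length ≤ T.card := by
  have hn : (LI m T).Nodup := List.Nodup.filter _ List.nodup_range
  rw [← List.toFinset_card_of_nodup hn]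
  apply Finset.card_le_card
  intro i hi
  unfold LI at hi
  simp only [List.mem_toFinset, List.mem_filter, decide_eq_true_eq] at hi
  exact hi.2

theorem LS_length (k n : ℕ) (N : Finset ℕ) : (LS k n N).length ≤ 2 ^ N.card := by
  have hn : (LS k n N).Nodup := List.Nodup.filter _ (Finset.nodup_toList _)
  rw [← List.toFinset_card_of_nodup hn, ← Finset.card_powerset]
  apply Finset.card_le_card
  intro S hS
  unfold LS at hS
  simp only [List.mem_toFinset, List.mem_filter, decide_eq_true_eq] at hS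
  exact Finset.mem_powerset.2 hS.2

theorem disj_nodup (k n : ℕ) : (disj k n).Nodup := by
  unfold disj
  apply List.Nodup.filter
  have h := Finset.nodup_toList ((Finset.range n).powersetCard k)
  exact List.Nodup.product h h

theorem LP_length (k n : ℕ) (N : Finset ℕ) : (LP k n N).length ≤ 2 ^ N.card * 2 ^ N.card := by
  have hn : (LP k n N).Nodup := List.Nodup.filter _ (disj_nodup k n)
  rw [← List.toFinset_card_of_nodup hn, ← Finset.card_powerset, ← Finset.card_product]
  apply Finset.card_le_card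
  intro S hS
  unfold LP at hS
  simp only [List.mem_toFinset, List.mem_filter, decide_eq_true_eq] at hS
  exact Finset.mem_product.2 ⟨Finset.mem_powerset.2 hS.2.1, Finset.mem_powerset.2 hS.2.2⟩

theorem disj_length (k n : ℕ) : (disj k n).length ≤ (n + 2) ^ k * (n + 2) ^ k := by
  rw [← List.toFinset_card_of_nodup (disj_nodup k n)]
  have h1 : (disj k n).toFinset ⊆ (Finset.range n).powersetCard k ×ˢ
      (Finset.range n).powersetCard k := by
    intro P hP
    unfold disj at hP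
    simp only [List.mem_toFinset, List.mem_filter, decide_eq_true_eq] at hP
    have h2 : P.1 ∈ subs k n ∧ P.2 ∈ subs k n := List.mem_product.1 hP.1
    rw [mem_subs, mem_subs] at h2
    rw [Finset.mem_product, Finset.mem_powersetCard, Finset.mem_powersetCard]
    exact h2
  refine (Finset.card_le_card h1).trans ?_
  rw [Finset.card_product, Finset.card_powersetCard, Finset.card_range]
  have h2 : n.choose k ≤ (n + 2) ^ k :=
    (Nat.choose_le_pow n k).trans (Nat.pow_le_pow_left (by omega) k)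
  exact Nat.mul_le_mul h2 h2

theorem pv_size (S : Finset ℕ) (i : ℕ) : (pv S i).size = 1 := rfl

theorem A1_size (k n m : ℕ) (N T : Finset ℕ) {a t : ℕ} (hN : N.card ≤ a) (hT : T.card ≤ t) :
    (A1 k n m N T).size ≤ 2 ^ a * (2 * t + 5) + 3 := by
  unfold A1
  refine (AND_map_size _ (2 * t + 4) _ fun S _ => ?_).trans ?_
  · refine (OR_map_size _ 1 _ fun i _ => le_of_eq (pv_size S i)).trans ?_
    have := LI_length m T
    omega
  · have h1 : (LS k n N).length ≤ 2 ^ a := (LS_length k n N).trans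
      (Nat.pow_le_pow_right (by norm_num) hN)
    have := Nat.mul_le_mul_right (2 * t + 5) h1
    have e : 2 * t + 4 + 1 = 2 * t + 5 := by omega
    rw [e]
    omega

theorem A2_size (k n m : ℕ) (N T : Finset ℕ) {a t : ℕ} (hN : N.card ≤ a) (hT : T.card ≤ t) :
    (A2 k n m N T).size ≤ 2 ^ a * 2 ^ a * (5 * t + 4) + 3 := by
  unfold A2
  refine (AND_map_size _ (5 * t + 3) _ fun P _ => ?_).trans ?_
  · refine (AND_map_size _ 4 _ fun i _ => ?_).trans ?_
    · simp [pv, size]
    · have := LI_length m T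
      omega
  · have h0 : 2 ^ N.card ≤ 2 ^ a := Nat.pow_le_pow_right (by norm_num) hN
    have h1 : (LP k n N).length ≤ 2 ^ a * 2 ^ a := (LP_length k n N).trans
      (Nat.mul_le_mul h0 h0)
    have := Nat.mul_le_mul_right (5 * t + 4) h1
    have e : 5 * t + 3 + 1 = 5 * t + 4 := by omega
    rw [e]
    omega

theorem HI_size (k n m : ℕ) (hm : m ≤ n + 1) : (HI k n m).size ≤ (n + 2) ^ (2 * k + 5) := by
  unfold HI
  have h1 : (AND ((disj k n).map fun P => AND ((List.range m).map fun i =>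
      neg (and (pv P.1 i) (pv P.2 i))))).size ≤ (disj k n).length * (5 * m + 3 + 1) + 3 := by
    refine AND_map_size _ (5 * m + 3) _ fun P _ => ?_
    refine (AND_map_size _ 4 _ fun i _ => ?_).trans ?_
    · simp [pv, size]
    · rw [List.length_range]
      omega
  refine h1.trans ?_
  have h2 := disj_length k n
  have h3 := Nat.mul_le_mul_right (5 * m + 3 + 1) h2
  have h4 : 5 * m + 3 + 1 ≤ 8 * (n + 2) := by omega
  have h5 : 1 ≤ (n + 2) ^ k * (n + 2) ^ k := Nat.mul_pos (by positivity) (by positivity)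
  have h6 : (n + 2) ^ k * (n + 2) ^ k * (5 * m + 3 + 1) + 3 ≤
      (n + 2) ^ k * (n + 2) ^ k * (16 * (n + 2)) := by nlinarith
  refine (Nat.add_le_add_right h3 3).trans (h6.trans ?_)
  have h7 : 16 ≤ (n + 2) ^ 4 := by
    calc 16 = 2 ^ 4 := by norm_num
      _ ≤ (n + 2) ^ 4 := Nat.pow_le_pow_left (by omega) 4
  calc (n + 2) ^ k * (n + 2) ^ k * (16 * (n + 2)) ≤
      (n + 2) ^ k * (n + 2) ^ k * ((n + 2) ^ 4 * (n + 2)) :=
        Nat.mul_le_mul_left _ (Nat.mul_le_mul_right _ h7)
    _ = (n + 2) ^ (2 * k + 5) := by ring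

/-- **the base cases** -/
theorem t_bc (h : T_KN) (F : List Rule) (k : ℕ) : T_BC F k := by
  intro hk
  set t := TT k with ht
  set a := t + 2 * k with ha
  obtain ⟨X, hX⟩ : ∃ X, X = (2 ^ a * (2 * t + 5) + 3) + (2 ^ a * 2 ^ a * (5 * t + 4) + 3) + 2 :=
    ⟨_, rfl⟩
  refine ⟨40, (2 * k + 5) + (X + 10) + X ^ 4 * 2 ^ X, fun n m M hm hG hM N T hN hT hc hTt => ?_⟩
  have hF := hG.hF
  have hNa : N.card ≤ a := by omega
  have s1 := A1_size k n m N T hNa hTt
  have s2 := A2_size k n m N T hNa hTt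
  have s3 := HI_size k n m (by omega)
  -- numbers
  have hn2 : 2 ≤ n + 2 := by omega
  have hY1 : 1 ≤ (n + 2) ^ (2 * k + 5) := Nat.one_le_pow _ _ (by omega)
  have hXM : X ^ 4 * 2 ^ X ≤ M := by
    refine le_trans ?_ hM
    calc X ^ 4 * 2 ^ X ≤ 2 ^ (X ^ 4 * 2 ^ X) := Nat.lt_two_pow_self.le
      _ ≤ (n + 2) ^ (X ^ 4 * 2 ^ X) := Nat.pow_le_pow_left hn2 _
      _ ≤ _ := Nat.pow_le_pow_right (by omega) (by omega)
  have hbig : 4 * (n + 2) ^ (2 * k + 5) + 4 * X + 100 ≤ M := by
    refine le_trans ?_ hM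
    have e1 : (n + 2) ^ ((2 * k + 5) + (X + 10) + X ^ 4 * 2 ^ X) ≥
        (n + 2) ^ (2 * k + 5) * (n + 2) ^ (X + 10) := by
      rw [← pow_add]
      exact Nat.pow_le_pow_right (by omega) (by omega)
    have e2 : 1024 * (X + 1) ≤ (n + 2) ^ (X + 10) := by
      calc 1024 * (X + 1) ≤ 1024 * 2 ^ X := Nat.mul_le_mul_left _ Nat.lt_two_pow_self
        _ = 2 ^ (X + 10) := by rw [pow_add, mul_comm]; norm_num
        _ ≤ _ := Nat.pow_le_pow_left hn2 _
    have e3 := Nat.mul_le_mul_left ((n + 2) ^ (2 * k + 5)) e2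
    generalize (n + 2) ^ (2 * k + 5) = Y at *
    nlinarith
  set Y := (n + 2) ^ (2 * k + 5) with hY
  -- the proof of the closed formula
  have hpf : Pf F (neg (and (A1 k n m N T) (A2 k n m N T))) (M ^ 2) := by
    have h1 := (pf_taut hF).choose_spec _ (taut h hk hN hT hc) var 1 le_rfl (fun _ _ => le_rfl)
    rw [subst_var] at h1
    refine Pf.mono h1 ?_
    have hcT : cT F = (pf_taut hF).choose := by
      unfold cT
      rw [dif_pos hF]
    rw [← hcT, mul_one]
    have hs : (neg (and (A1 k n m N T) (A2 k n m N T))).size ≤ X := by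
      simp only [Fm.size]
      omega
    have hv := (vars_card_le (neg (and (A1 k n m N T) (A2 k n m N T)))).trans hs
    have hcM : cT F ≤ M := by
      refine le_trans ?_ hG.ct
      rw [mul_assoc]
      exact Nat.le_mul_of_pos_right _ (by positivity)
    calc cT F * _ ^ 4 * 2 ^ _ ≤ cT F * X ^ 4 * 2 ^ X :=
          Nat.mul_le_mul (Nat.mul_le_mul_left _ (Nat.pow_le_pow_left hs 4))
            (Nat.pow_le_pow_right (by norm_num) hv)
      _ = cT F * (X ^ 4 * 2 ^ X) := by ring
      _ ≤ M * M := Nat.mul_le_mul hcM hXM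
      _ = M ^ 2 := by ring
  -- the context
  have hΓ : (AND [A1 k n m N T, HI k n m]).size = (A1 k n m N T).size + (HI k n m).size + 5 := by
    simp only [AND, Fm.size]
    omega
  have g0 : Sq F M [A1 k n m N T, HI k n m] (neg (and (A1 k n m N T) (A2 k n m N T))) 5 :=
    Sq.ofPf hG hpf (by simp only [Fm.size]; omega)
  have g1 : Sq F M [A1 k n m N T, HI k n m] (A1 k n m N T) 4 :=
    Sq.hyp hG (by simp) (by omega)
  have g2 : Sq F M [A1 k n m N T, HI k n m] (HI k n m) 4 :=
    Sq.hyp hG (by simp) (by omega)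
  have g3 : Sq F M [A1 k n m N T, HI k n m] (A2 k n m N T) 22 := by
    unfold A2
    refine Sq.ANDI hG (e := 17) (fun P hP => ?_) (by
      have : (AND ((LP k n N).map fun P => AND ((LI m T).map fun i =>
        neg (and (pv P.1 i) (pv P.2 i))))).size = (A2 k n m N T).size := rfl
      omega)
    have hP' : P ∈ disj k n := List.mem_of_mem_filter hP
    have hPs : (AND ((LI m T).map fun i => neg (and (pv P.1 i) (pv P.2 i)))).size ≤
        (A2 k n m N T).size := by
      have := mem_AND_size (l := (LP k n N).map fun P => AND ((LI m T).map fun i =>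
        neg (and (pv P.1 i) (pv P.2 i)))) (List.mem_map.2 ⟨P, hP, rfl⟩)
      unfold A2
      omega
    refine Sq.ANDI hG (e := 12) (fun i hi => ?_) (by omega)
    have hi' : i ∈ List.range m := List.mem_of_mem_filter hi
    unfold HI at g2
    have g4 := Sq.ANDE hG g2 hP'
    have g5 := Sq.ANDE hG g4 hi'
    exact g5.up hG (by omega)
  have g6 : Sq F M [A1 k n m N T, HI k n m] (and (A1 k n m N T) (A2 k n m N T)) 26 :=
    (Sq.andI hG g1 g3 (by omega)).up hG (by omega)
  exact (Sq.contraF hG g6 g0 (by omega)).up hG (by omega)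

end Pool.Agent.Y287.KL.BC
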