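import Pool.Agent.Y287.KL.Num

/-!
# Counting formulas of polynomial size with polynomial-size Frege proofs of additivity
-/

set_option autoImplicit false

namespace Pool.Agent.Y287.KL

open Pool.Agent.H555R2.PF Pool.Agent.H555R2.PF.Fm Pool.Agent.TH677.EF Pool.Agent.Y528.KL

/-- blocks of variables -/
def enc (N : ℕ) (Ps : ℕ → ℕ → Fm) (n : ℕ) : Fm := Ps (n / N) (n % N)

theorem enc_subst (σ : ℕ → Fm) (N : ℕ) (Ps : ℕ → ℕ → Fm) (n : ℕ) :
    (enc N Ps n).subst σ = enc N (fun j i => (Ps j i).subst σ) n := rfl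

theorem enc_congr {N : ℕ} (hN : 0 < N) {Ps Qs : ℕ → ℕ → Fm} (h : ∀ j, ∀ n < N, Ps j n = Qs j n) :
    enc N Ps = enc N Qs := by
  funext n
  exact h _ _ (Nat.mod_lt _ hN)

theorem enc_apply {N : ℕ} (Ps : ℕ → ℕ → Fm) (j : ℕ) {n : ℕ} (hn : n < N) :
    enc N Ps (N * j + n) = Ps j n := by
  unfold enc
  rw [Nat.mul_add_div (by omega), Nat.mul_add_mod, Nat.div_eq_of_lt hn, Nat.mod_eq_of_lt hn,
    add_zero]

def l3 (P Q R : ℕ → Fm) (j : ℕ) : ℕ → Fm := if j = 0 then P else if j = 1 then Q else R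

/-- the relation `u₀ ≡ u₁ + u₂` -/
noncomputable def RR (B : ℕ) : Fm := bf (3 * (2 * B)) fun u =>
  valP B u ≡ valP B (fun i => u (2 * B + i)) + valP B (fun i => u (2 * B * 2 + i)) [MOD 2 ^ B]

/-- the formula `P ≡ Q + R` -/
noncomputable def rel (B : ℕ) (P Q R : ℕ → Fm) : Fm := (RR B).subst (enc (2 * B) (l3 P Q R))

theorem rel_eval {B : ℕ} (hB : 0 < B) (P Q R : ℕ → Fm) (v : ℕ → Prop) :
    (rel B P Q R).eval v ↔ valP B (fun n => (P n).eval v) ≡
      valP B (fun n => (Q n).eval v) + valP B (fun n => (R n).eval v) [MOD 2 ^ B] := by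
  unfold rel RR
  rw [eval_subst, bf_eval]
  have h0 : valP B (fun i => i < 3 * (2 * B) ∧ (enc (2 * B) (l3 P Q R) i).eval v) =
      valP B (fun n => (P n).eval v) := by
    apply valP_congr
    intro i hi
    have := enc_apply (l3 P Q R) 0 hi
    rw [mul_zero, zero_add] at this
    rw [this]
    constructor
    · rintro ⟨_, h⟩
      simpa [l3] using h
    · intro h
      exact ⟨by omega, by simpa [l3] using h⟩
  have h1 : valP B (fun i => 2 * B + i < 3 * (2 * B) ∧
      (enc (2 * B) (l3 P Q R) (2 * B + i)).eval v) = valP B (fun n => (Q n).eval v) := by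
    apply valP_congr
    intro i hi
    have := enc_apply (l3 P Q R) 1 hi
    rw [mul_one] at this
    rw [this]
    constructor
    · rintro ⟨_, h⟩
      simpa [l3] using h
    · intro h
      exact ⟨by omega, by simpa [l3] using h⟩
  have h2 : valP B (fun i => 2 * B * 2 + i < 3 * (2 * B) ∧
      (enc (2 * B) (l3 P Q R) (2 * B * 2 + i)).eval v) = valP B (fun n => (R n).eval v) := by
    apply valP_congr
    intro i hi
    have := enc_apply (l3 P Q R) 2 hi
    rw [this]
    constructor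
    · rintro ⟨_, h⟩
      simpa [l3] using h
    · intro h
      exact ⟨by omega, by simpa [l3] using h⟩
  rw [h0, h1, h2]

theorem l3_fun (f : (ℕ → Fm) → ℕ → Fm) (P Q R : ℕ → Fm) (j : ℕ) :
    f (l3 P Q R j) = l3 (f P) (f Q) (f R) j := by
  unfold l3
  split_ifs <;> rfl

theorem rel_subst (σ : ℕ → Fm) (B : ℕ) (P Q R : ℕ → Fm) : (rel B P Q R).subst σ =
    rel B (fun n => (P n).subst σ) (fun n => (Q n).subst σ) (fun n => (R n).subst σ) := by
  unfold rel
  rw [subst_subst]
  congr 1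
  funext n
  rw [enc_subst]
  unfold enc
  exact congrFun (l3_fun (fun P n => (P n).subst σ) P Q R (n / (2 * B))) (n % (2 * B))

theorem rel_congr {B : ℕ} (hB : 0 < B) {P Q R P' Q' R' : ℕ → Fm} (hP : ∀ n < 2 * B, P n = P' n)
    (hQ : ∀ n < 2 * B, Q n = Q' n) (hR : ∀ n < 2 * B, R n = R' n) :
    rel B P Q R = rel B P' Q' R' := by
  unfold rel
  rw [enc_congr (by omega)]
  intro j n hn
  unfold l3
  split_ifs
  · exact hP n hn
  · exact hQ n hn
  · exact hR n hn

theorem rel_size {B : ℕ} {P Q R : ℕ → Fm} {S : ℕ} (hS : 1 ≤ S) (hP : ∀ n, (P n).size ≤ S)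
    (hQ : ∀ n, (Q n).size ≤ S) (hR : ∀ n, (R n).size ≤ S) :
    (rel B P Q R).size ≤ 10 * 2 ^ (3 * (2 * B)) * S := by
  unfold rel
  refine (size_subst_le hS fun n _ => ?_).trans (Nat.mul_le_mul_right _ ?_)
  · unfold enc l3
    split_ifs
    · exact hP _
    · exact hQ _
    · exact hR _
  · have := bf_size (3 * (2 * B)) fun u =>
      valP B u ≡ valP B (fun i => u (2 * B + i)) + valP B (fun i => u (2 * B * 2 + i)) [MOD 2 ^ B]
    unfold RR
    omega

theorem rel_vars {B : ℕ} (hB : 0 < B) {P Q R : ℕ → Fm} {x : ℕ} (h : x ∈ (rel B P Q R).vars) :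
    ∃ n < 2 * B, x ∈ (P n).vars ∨ x ∈ (Q n).vars ∨ x ∈ (R n).vars := by
  unfold rel at h
  rw [vars_subst] at h
  obtain ⟨n, _, hx⟩ := h
  refine ⟨n % (2 * B), Nat.mod_lt _ (by omega), ?_⟩
  unfold enc l3 at hx
  split_ifs at hx
  · exact Or.inl hx
  · exact Or.inr (Or.inl hx)
  · exact Or.inr (Or.inr hx)

/-- the `j`-th block of variables -/
def VB (B j : ℕ) (n : ℕ) : Fm := var (2 * B * j + n)

theorem VB_subst (B : ℕ) (Ps : ℕ → ℕ → Fm) (j : ℕ) : ∀ n < 2 * B,
    (VB B j n).subst (enc (2 * B) Ps) = Ps j n := fun n hn => by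
  simp only [VB, subst]
  exact enc_apply Ps j hn

/-- the tautology for one step -/
noncomputable def TS (B : ℕ) : Fm :=
  imp (rel B (VB B 0) (VB B 1) (VB B 2)) (imp (rel B (VB B 3) (VB B 4) (VB B 5))
    (rel B (addN B (VB B 0) (VB B 3)) (addN B (VB B 1) (VB B 4)) (addN B (VB B 2) (VB B 5))))

theorem TS_taut {B : ℕ} (hB : 0 < B) (v : ℕ → Prop) : (TS B).eval v := by
  simp only [TS, eval]
  rw [rel_eval hB, rel_eval hB, rel_eval hB]
  intro h1 h2
  refine (val_add B _ _ v).trans ((h1.add h2).trans ?_)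
  refine Nat.ModEq.trans ?_ ((val_add B _ _ v).symm.add (val_add B _ _ v).symm)
  rw [show ∀ a b c d : ℕ, a + b + (c + d) = a + c + (b + d) by intros; ring]

theorem TS_subst {B : ℕ} (hB : 0 < B) (Ps : ℕ → ℕ → Fm) : (TS B).subst (enc (2 * B) Ps) =
    imp (rel B (Ps 0) (Ps 1) (Ps 2)) (imp (rel B (Ps 3) (Ps 4) (Ps 5))
      (rel B (addN B (Ps 0) (Ps 3)) (addN B (Ps 1) (Ps 4)) (addN B (Ps 2) (Ps 5)))) := by
  simp only [TS, subst, rel_subst]
  congr 1
  · exact rel_congr hB (VB_subst B Ps 0) (VB_subst B Ps 1) (VB_subst B Ps 2)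
  · congr 1
    · exact rel_congr hB (VB_subst B Ps 3) (VB_subst B Ps 4) (VB_subst B Ps 5)
    · simp only [addN_subst]
      exact rel_congr hB (addN_congr hB (VB_subst B Ps 0) (VB_subst B Ps 3))
        (addN_congr hB (VB_subst B Ps 1) (VB_subst B Ps 4))
        (addN_congr hB (VB_subst B Ps 2) (VB_subst B Ps 5))

theorem VB_size (B j n : ℕ) : (VB B j n).size ≤ 1 := le_rfl

theorem TS_size (B : ℕ) : (TS B).size ≤ 5000 * 2 ^ (3 * (2 * B)) := by
  have h1 := rel_size (B := B) le_rfl (VB_size B 0) (VB_size B 1) (VB_size B 2)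
  have h2 := rel_size (B := B) le_rfl (VB_size B 3) (VB_size B 4) (VB_size B 5)
  have h3 := rel_size (B := B) (S := 484 * 1) (by norm_num)
    (addN_size (B := B) le_rfl (VB_size B 0) (VB_size B 3))
    (addN_size (B := B) le_rfl (VB_size B 1) (VB_size B 4))
    (addN_size (B := B) le_rfl (VB_size B 2) (VB_size B 5))
  have h4 : 1 ≤ 2 ^ (3 * (2 * B)) := Nat.one_le_two_pow
  simp only [TS, size]
  omega

theorem TS_vars {B : ℕ} (hB : 0 < B) : ∀ x ∈ (TS B).vars, x < 12 * B := by
  intro x hx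
  have hV : ∀ j n, n < 2 * B → j ≤ 5 → x ∈ (VB B j n).vars → x < 12 * B := by
    intro j n hn hj h
    simp only [VB, vars, Finset.mem_singleton] at h
    have : 2 * B * j ≤ 2 * B * 5 := Nat.mul_le_mul_left _ hj
    omega
  simp only [TS, vars, Finset.mem_union] at hx
  rcases hx with hx | hx | hx
  · obtain ⟨n, hn, h | h | h⟩ := rel_vars hB hx
    · exact hV 0 n hn (by norm_num) h
    · exact hV 1 n hn (by norm_num) h
    · exact hV 2 n hn (by norm_num) h
  · obtain ⟨n, hn, h | h | h⟩ := rel_vars hB hx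
    · exact hV 3 n hn (by norm_num) h
    · exact hV 4 n hn (by norm_num) h
    · exact hV 5 n hn (by norm_num) h
  · obtain ⟨n, hn, h | h | h⟩ := rel_vars hB hx
    · obtain ⟨i, hi, h | h⟩ := addN_vars hn h
      · exact hV 0 i hi (by norm_num) h
      · exact hV 3 i hi (by norm_num) h
    · obtain ⟨i, hi, h | h⟩ := addN_vars hn h
      · exact hV 1 i hi (by norm_num) h
      · exact hV 4 i hi (by norm_num) h
    · obtain ⟨i, hi, h | h⟩ := addN_vars hn h
      · exact hV 2 i hi (by norm_num) h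
      · exact hV 5 i hi (by norm_num) h

/-! ### the three substitutions -/

def gx (i : ℕ) : Fm := var (2 * i)

def gy (i : ℕ) : Fm := and (neg (var (2 * i))) (var (2 * i + 1))

def gz (i : ℕ) : Fm := or (var (2 * i)) (var (2 * i + 1))

/-- additivity at the level `l` -/
noncomputable def REL (B l : ℕ) : Fm := rel B (treeN B l gz) (treeN B l gx) (treeN B l gy)

theorem REL_shift (B l : ℕ) : (REL B l).subst (fun i => var (i + 2 ^ (l + 1))) =
    rel B (treeN B l fun i => gz (i + 2 ^ l)) (treeN B l fun i => gx (i + 2 ^ l))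
      (treeN B l fun i => gy (i + 2 ^ l)) := by
  unfold REL
  rw [rel_subst]
  have e : ∀ i, 2 * i + 2 ^ (l + 1) = 2 * (i + 2 ^ l) := by intro i; rw [pow_succ]; ring
  have e' : ∀ i, 2 * i + 1 + 2 ^ (l + 1) = 2 * (i + 2 ^ l) + 1 := by intro i; rw [pow_succ]; ring
  congr 1
  · funext n
    rw [treeN_subst]
    congr 1
    funext i
    simp only [gz, subst, e, e']
  · funext n
    rw [treeN_subst]
    congr 1
    funext i
    simp only [gx, subst, e]
  · funext n
    rw [treeN_subst]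
    congr 1
    funext i
    simp only [gy, subst, e, e']

/-- the six numbers of one step -/
def l6 (P0 P1 P2 P3 P4 P5 : ℕ → Fm) (j : ℕ) : ℕ → Fm :=
  if j = 0 then P0 else if j = 1 then P1 else if j = 2 then P2 else if j = 3 then P3
    else if j = 4 then P4 else P5

theorem g_size (i : ℕ) : (gx i).size ≤ 4 ∧ (gy i).size ≤ 4 ∧ (gz i).size ≤ 4 := by
  simp [gx, gy, gz, size]

/-- the bound for the proof of one step -/
def WW (c L : ℕ) : ℕ :=
  c * (5000 * 2 ^ (3 * (2 * (L + 1)))) ^ 4 * 2 ^ (12 * (L + 1)) * (4 * 4 * 484 ^ L)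

theorem treeN_size' (B : ℕ) {l L : ℕ} (hl : l ≤ L) (g : ℕ → Fm) (hg : ∀ i, (g i).size ≤ 4) (n : ℕ) :
    (treeN B l g n).size ≤ 4 * 4 * 484 ^ L :=
  (treeN_size B (by norm_num) l g hg n).trans
    (Nat.mul_le_mul_left _ (Nat.pow_le_pow_right (by norm_num) hl))

theorem REL_pf (F : List Rule) (hF : IsFrege F) : ∃ c a : ℕ, ∀ L l : ℕ, l ≤ L →
    Pf F (REL (L + 1) l) (a ^ l * WW c L) := by
  obtain ⟨c, hc⟩ := pf_tt F hF
  obtain ⟨d, hd1, hd⟩ := pf_mp F hF
  refine ⟨c, 1 + d + d * d, fun L => ?_⟩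
  set B := L + 1 with hB
  have hB0 : 0 < B := by omega
  have hM1 : 1 ≤ 4 * 4 * 484 ^ L := Nat.mul_pos (by norm_num) (by positivity)
  have hW : c * (5000 * 2 ^ (3 * (2 * B))) ^ 4 * 2 ^ (12 * B) ≤ WW c L := by
    unfold WW
    exact Nat.le_mul_of_pos_right _ hM1
  intro l
  induction l with
  | zero =>
    intro _
    rw [pow_zero, one_mul]
    refine pf_le (hc _ (5000 * 2 ^ (3 * (2 * B))) (12 * B) ?_ ?_ ?_) hW
    · intro v
      unfold REL
      rw [rel_eval hB0]
      simp only [treeN]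
      rw [val_leaf hB0, val_leaf hB0, val_leaf hB0]
      have : ind ((gz 0).eval v) = ind ((gx 0).eval v) + ind ((gy 0).eval v) := by
        by_cases h0 : v 0 <;> by_cases h1 : v 1 <;> simp [gx, gy, gz, eval, ind, h0, h1]
      rw [this]
    · have h := rel_size (B := B) (S := 16) (by norm_num)
        (fun n => treeN_size (S := 4) B (by norm_num) 0 gz (fun i => (g_size i).2.2) n)
        (fun n => treeN_size (S := 4) B (by norm_num) 0 gx (fun i => (g_size i).1) n)
        (fun n => treeN_size (S := 4) B (by norm_num) 0 gy (fun i => (g_size i).2.1) n)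
      unfold REL
      refine h.trans ?_
      generalize 2 ^ (3 * (2 * B)) = X
      omega
    · intro x hx
      obtain ⟨n, hn, h | h | h⟩ := rel_vars hB0 hx
      · obtain ⟨i, hi, h⟩ := treeN_vars 0 gz hn h
        simp only [pow_zero, Nat.lt_one_iff] at hi
        subst hi
        simp [gz, vars] at h
        omega
      · obtain ⟨i, hi, h⟩ := treeN_vars 0 gx hn h
        simp only [pow_zero, Nat.lt_one_iff] at hi
        subst hi
        simp [gx, vars] at h
        omega
      · obtain ⟨i, hi, h⟩ := treeN_vars 0 gy hn h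
        simp only [pow_zero, Nat.lt_one_iff] at hi
        subst hi
        simp [gy, vars] at h
        omega
  | succ l ih =>
    intro hl
    have h1 := ih (by omega)
    have hl' : l ≤ L := by omega
    -- the shifted copy
    have h2 : Pf F ((REL B l).subst (fun i => var (i + 2 ^ (l + 1))))
        ((1 + d + d * d) ^ l * WW c L * 1) := pf_subst h1 le_rfl fun n => le_rfl
    rw [REL_shift, mul_one] at h2
    -- the step
    set Ps : ℕ → ℕ → Fm := l6 (treeN B l gz) (treeN B l gx) (treeN B l gy)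
      (treeN B l fun i => gz (i + 2 ^ l)) (treeN B l fun i => gx (i + 2 ^ l))
      (treeN B l fun i => gy (i + 2 ^ l)) with hPs
    have hPsize : ∀ n, (enc (2 * B) Ps n).size ≤ 4 * 4 * 484 ^ L := by
      intro n
      unfold enc
      rw [hPs]
      unfold l6
      split_ifs
      · exact treeN_size' B hl' _ (fun i => (g_size i).2.2) _
      · exact treeN_size' B hl' _ (fun i => (g_size i).1) _
      · exact treeN_size' B hl' _ (fun i => (g_size i).2.1) _
      · exact treeN_size' B hl' _ (fun i => (g_size _).2.2) _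
      · exact treeN_size' B hl' _ (fun i => (g_size _).1) _
      · exact treeN_size' B hl' _ (fun i => (g_size _).2.1) _
    have h3 : Pf F ((TS B).subst (enc (2 * B) Ps)) (WW c L) :=
      pf_subst (hc (TS B) _ (12 * B) (TS_taut hB0) (TS_size B) (TS_vars hB0)) hM1 hPsize
    rw [TS_subst hB0] at h3
    have e0 : Ps 0 = treeN B l gz := rfl
    have e1 : Ps 1 = treeN B l gx := rfl
    have e2 : Ps 2 = treeN B l gy := rfl
    have e3 : Ps 3 = treeN B l fun i => gz (i + 2 ^ l) := rfl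
    have e4 : Ps 4 = treeN B l fun i => gx (i + 2 ^ l) := rfl
    have e5 : Ps 5 = treeN B l fun i => gy (i + 2 ^ l) := rfl
    rw [e0, e1, e2, e3, e4, e5] at h3
    have h4 := hd _ _ _ _ h1 h3
    have h5 := hd _ _ _ _ h2 h4
    refine pf_le h5 ?_
    have h6 : WW c L ≤ (1 + d + d * d) ^ l * WW c L :=
      Nat.le_mul_of_pos_left _ (by positivity)
    have h7 : (1 + d + d * d) ^ (l + 1) * WW c L =
        (1 + d + d * d) * ((1 + d + d * d) ^ l * WW c L) := by
      rw [pow_succ]; ring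
    rw [h7]
    generalize (1 + d + d * d) ^ l * WW c L = X at h6 ⊢
    have h8 : d * d * WW c L ≤ d * d * X := Nat.mul_le_mul_left _ h6
    calc X + d * (X + d * WW c L) = X + d * X + d * d * WW c L := by ring
      _ ≤ X + d * X + d * d * X := Nat.add_le_add_left h8 _
      _ = _ := by ring

/-! ### the counting formulas -/

/-- the value is congruent to `r` modulo `2 ^ L` -/
noncomputable def DD (L r : ℕ) : Fm := bf (2 * (L + 1)) fun u => valP (L + 1) u % 2 ^ L = r

/-- the counting formulas -/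
noncomputable def cnt (L r : ℕ) : Fm := (DD L r).subst (treeN (L + 1) L var)

theorem DD_vars (L r : ℕ) : ∀ x ∈ (DD L r).vars, x < 2 * (L + 1) := by
  intro x hx
  rcases bf_vars _ _ x hx with h | h
  · exact h
  · omega

theorem DD_size (L r : ℕ) : (DD L r).size ≤ 10 * 2 ^ (2 * (L + 1)) := by
  have := bf_size (2 * (L + 1)) fun u => valP (L + 1) u % 2 ^ L = r
  unfold DD
  omega

theorem DD_eval (L r : ℕ) (v : ℕ → Prop) :
    (DD L r).eval v ↔ valP (L + 1) v % 2 ^ L = r := by
  unfold DD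
  rw [bf_eval]
  have : valP (L + 1) (fun i => i < 2 * (L + 1) ∧ v i) = valP (L + 1) v :=
    valP_congr fun i hi => ⟨fun h => h.2, fun h => ⟨hi, h⟩⟩
  rw [this]

theorem cnt_subst (L r : ℕ) (g : ℕ → Fm) : (cnt L r).subst g =
    (DD L r).subst (treeN (L + 1) L g) := by
  unfold cnt
  rw [subst_subst]
  congr 1
  funext n
  rw [treeN_subst]
  rfl

/-- the final tautology -/
noncomputable def FT (L r s : ℕ) : Fm :=
  imp (rel (L + 1) (VB (L + 1) 0) (VB (L + 1) 1) (VB (L + 1) 2))
    (imp ((DD L r).subst (VB (L + 1) 1)) (imp ((DD L s).subst (VB (L + 1) 2))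
      ((DD L ((r + s) % 2 ^ L)).subst (VB (L + 1) 0))))

theorem FT_taut (L r s : ℕ) (v : ℕ → Prop) : (FT L r s).eval v := by
  simp only [FT, eval]
  rw [rel_eval (by omega), eval_subst, eval_subst, eval_subst, DD_eval, DD_eval, DD_eval]
  intro h1 h2 h3
  have h4 : (2 : ℕ) ^ L ∣ 2 ^ (L + 1) := pow_dvd_pow 2 (by omega)
  have h5 := h1.of_dvd h4
  unfold Nat.ModEq at h5
  rw [h5, Nat.add_mod, h2, h3]

theorem DDVB (L r j : ℕ) (Ps : ℕ → ℕ → Fm) :
    ((DD L r).subst (VB (L + 1) j)).subst (enc (2 * (L + 1)) Ps) = (DD L r).subst (Ps j) := by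
  rw [subst_subst]
  exact subst_congr fun n hn => VB_subst (L + 1) Ps j n (DD_vars L r n hn)

theorem FT_subst (L r s : ℕ) (Ps : ℕ → ℕ → Fm) : (FT L r s).subst (enc (2 * (L + 1)) Ps) =
    imp (rel (L + 1) (Ps 0) (Ps 1) (Ps 2)) (imp ((DD L r).subst (Ps 1))
      (imp ((DD L s).subst (Ps 2)) ((DD L ((r + s) % 2 ^ L)).subst (Ps 0)))) := by
  have hB : 0 < L + 1 := by omega
  have e : (rel (L + 1) (VB (L + 1) 0) (VB (L + 1) 1) (VB (L + 1) 2)).subst
      (enc (2 * (L + 1)) Ps) = rel (L + 1) (Ps 0) (Ps 1) (Ps 2) := by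
    rw [rel_subst]
    exact rel_congr hB (VB_subst (L + 1) Ps 0) (VB_subst (L + 1) Ps 1) (VB_subst (L + 1) Ps 2)
  rw [← e, ← DDVB L r 1, ← DDVB L s 2, ← DDVB L ((r + s) % 2 ^ L) 0]
  rfl

theorem DDVB_size (L r j : ℕ) : ((DD L r).subst (VB (L + 1) j)).size ≤
    10 * 2 ^ (3 * (2 * (L + 1))) := by
  refine (size_subst_le le_rfl fun n _ => VB_size _ _ _).trans ?_
  rw [mul_one]
  refine (DD_size L r).trans (Nat.mul_le_mul_left _ (Nat.pow_le_pow_right (by norm_num) ?_))
  omega

theorem FT_size (L r s : ℕ) : (FT L r s).size ≤ 5000 * 2 ^ (3 * (2 * (L + 1))) := by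
  have h1 := rel_size (B := L + 1) le_rfl (VB_size (L + 1) 0) (VB_size (L + 1) 1)
    (VB_size (L + 1) 2)
  have h2 := DDVB_size L r 1
  have h3 := DDVB_size L s 2
  have h4 := DDVB_size L ((r + s) % 2 ^ L) 0
  have h5 : 1 ≤ 2 ^ (3 * (2 * (L + 1))) := Nat.one_le_two_pow
  simp only [FT, size]
  omega

theorem FT_vars (L r s : ℕ) : ∀ x ∈ (FT L r s).vars, x < 12 * (L + 1) := by
  intro x hx
  have hV : ∀ j n, n < 2 * (L + 1) → j ≤ 5 → x ∈ (VB (L + 1) j n).vars → x < 12 * (L + 1) := by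
    intro j n hn hj h
    simp only [VB, vars, Finset.mem_singleton] at h
    have : 2 * (L + 1) * j ≤ 2 * (L + 1) * 5 := Nat.mul_le_mul_left _ hj
    omega
  have hD : ∀ r j, j ≤ 5 → x ∈ ((DD L r).subst (VB (L + 1) j)).vars → x < 12 * (L + 1) := by
    intro r j hj h
    rw [vars_subst] at h
    obtain ⟨n, hn, h⟩ := h
    exact hV j n (DD_vars L r n hn) hj h
  simp only [FT, vars, Finset.mem_union] at hx
  rcases hx with hx | hx | hx | hx
  · obtain ⟨n, hn, h | h | h⟩ := rel_vars (by omega) hx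
    · exact hV 0 n hn (by norm_num) h
    · exact hV 1 n hn (by norm_num) h
    · exact hV 2 n hn (by norm_num) h
  · exact hD r 1 (by norm_num) hx
  · exact hD s 2 (by norm_num) hx
  · exact hD _ 0 (by norm_num) hx

theorem PB.le {f g : ℕ → ℕ} (hg : PB g) (h : ∀ L, f L ≤ g L) : PB f := by
  obtain ⟨e, he⟩ := hg
  exact ⟨e, fun L => (h L).trans (he L)⟩

theorem WW_PB (c : ℕ) : PB (WW c) := by
  unfold WW
  refine (((PB.const c).mul (PB.pow ((PB.const 5000).mul ?_) 4)).mul (PB.exp' 12)).mul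
    ((PB.const (4 * 4)).mul (PB.exp 484))
  refine PB.le (PB.exp' 6) fun L => le_of_eq ?_
  congr 1
  ring

/-- **counting formulas** of polynomial size with polynomial-size Frege proofs of additivity -/
theorem t_cnt : Pool.Agent.Y528.KL.T_CNT := by
  intro F hF
  obtain ⟨c₁, a, hREL⟩ := REL_pf F hF
  obtain ⟨c₂, hc⟩ := pf_tt F hF
  obtain ⟨d, hd1, hd⟩ := pf_mp F hF
  -- the bound
  have hPB : PB fun L => (10 * 2 ^ (2 * (L + 1))) * (4 * 4 * 484 ^ L) + WW c₂ L +
      (a ^ L * WW c₁ L + d * WW c₂ L) :=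
    ((((PB.const 10).mul (PB.exp' 2)).mul ((PB.const (4 * 4)).mul (PB.exp 484))).add
      (WW_PB c₂)).add (((PB.exp a).mul (WW_PB c₁)).add ((PB.const d).mul (WW_PB c₂)))
  obtain ⟨e, he⟩ := hPB
  refine ⟨e, fun L => ⟨cnt L, ?_, ?_, ?_, ?_, ?_⟩⟩
  · intro v r hr
    unfold cnt
    rw [eval_subst, DD_eval]
    have h1 := val_tree (B := L + 1) (by omega) v L var
    have h2 : (2 : ℕ) ^ L ∣ 2 ^ (L + 1) := pow_dvd_pow 2 (by omega)
    have h3 := h1.of_dvd h2
    unfold Nat.ModEq at h3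
    rw [h3]
    have h4 := sum_ind (2 ^ L) v
    simp only [eval]
    rw [h4]
  · intro r hr x hx
    unfold cnt at hx
    rw [vars_subst] at hx
    obtain ⟨n, hn, hx⟩ := hx
    obtain ⟨i, hi, h⟩ := treeN_vars L var (DD_vars L r n hn) hx
    simp only [vars, Finset.mem_singleton] at h
    omega
  · intro r hr
    have h1 : (cnt L r).size ≤ (10 * 2 ^ (2 * (L + 1))) * (4 * 4 * 484 ^ L) := by
      unfold cnt
      refine (size_subst_le (Nat.mul_pos (by norm_num) (by positivity)) fun n _ =>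
        treeN_size' (L + 1) le_rfl var (fun i => by simp [size]) n).trans
        (Nat.mul_le_mul_right _ (DD_size L r))
    have := he L
    simp only at this
    omega
  · intro r s hr hs hrs
    have h1 : Pf F (neg (and (DD L r) (DD L s)))
        (c₂ * (5000 * 2 ^ (3 * (2 * (L + 1)))) ^ 4 * 2 ^ (12 * (L + 1))) := by
      apply hc
      · intro v
        simp only [eval]
        rw [DD_eval, DD_eval]
        rintro ⟨h1, h2⟩
        exact hrs (h1.symm.trans h2)
      · have h2 := DD_size L r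
        have h3 := DD_size L s
        have h4 : 2 ^ (2 * (L + 1)) ≤ 2 ^ (3 * (2 * (L + 1))) :=
          Nat.pow_le_pow_right (by norm_num) (by omega)
        have h5 : 1 ≤ 2 ^ (2 * (L + 1)) := Nat.one_le_two_pow
        simp only [size]
        omega
      · intro x hx
        simp only [vars, Finset.mem_union] at hx
        rcases hx with hx | hx
        · have := DD_vars L r x hx
          omega
        · have := DD_vars L s x hx
          omega
    have h2 := pf_subst h1 (M := 4 * 4 * 484 ^ L) (Nat.mul_pos (by norm_num) (by positivity))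
      (σ := treeN (L + 1) L var) fun n =>
        treeN_size' (L + 1) le_rfl var (fun i => by simp [size]) n
    refine pf_le h2 ?_
    have h3 := he L
    have h4 : c₂ * (5000 * 2 ^ (3 * (2 * (L + 1)))) ^ 4 * 2 ^ (12 * (L + 1)) *
      (4 * 4 * 484 ^ L) = WW c₂ L := rfl
    rw [h4]
    simp only at h3
    omega
  · intro r s hr hs
    set Ps : ℕ → ℕ → Fm := l3 (treeN (L + 1) L gz) (treeN (L + 1) L gx) (treeN (L + 1) L gy)
      with hPs
    have hPsize : ∀ n, (enc (2 * (L + 1)) Ps n).size ≤ 4 * 4 * 484 ^ L := by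
      intro n
      unfold enc
      rw [hPs]
      unfold l3
      split_ifs
      · exact treeN_size' _ le_rfl _ (fun i => (g_size i).2.2) _
      · exact treeN_size' _ le_rfl _ (fun i => (g_size i).1) _
      · exact treeN_size' _ le_rfl _ (fun i => (g_size i).2.1) _
    have h3 : Pf F ((FT L r s).subst (enc (2 * (L + 1)) Ps)) (WW c₂ L) :=
      pf_subst (hc (FT L r s) _ (12 * (L + 1)) (FT_taut L r s) (FT_size L r s) (FT_vars L r s))
        (Nat.mul_pos (by norm_num) (by positivity)) hPsize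
    rw [FT_subst] at h3
    have e0 : Ps 0 = treeN (L + 1) L gz := rfl
    have e1 : Ps 1 = treeN (L + 1) L gx := rfl
    have e2 : Ps 2 = treeN (L + 1) L gy := rfl
    rw [e0, e1, e2, ← cnt_subst, ← cnt_subst, ← cnt_subst] at h3
    have h4 := hd _ _ _ _ (hREL L L le_rfl) h3
    refine pf_le h4 ?_
    have h5 := he L
    simp only at h5
    omega

end Pool.Agent.Y287.KL
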