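import Pool.Agent.Y287.KL.Tools

/-!
# Numbers modulo `2 ^ B` in carry-save form
-/

set_option autoImplicit false

namespace Pool.Agent.Y287.KL

open Pool.Agent.H555R2.PF Pool.Agent.H555R2.PF.Fm Pool.Agent.TH677.EF Pool.Agent.Y528.KL

def xr (A C : Fm) : Fm := and (or A C) (neg (and A C))

def x3 (A C D : Fm) : Fm := xr (xr A C) D

def mj (A C D : Fm) : Fm := or (or (and A C) (and A D)) (and C D)

/-- the sum bits -/
def s3 (x y z : ℕ → Fm) (i : ℕ) : Fm := x3 (x i) (y i) (z i)

/-- the carry bits -/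
def c3 (x y z : ℕ → Fm) : ℕ → Fm
  | 0 => and (x 0) (neg (x 0))
  | i + 1 => mj (x i) (y i) (z i)

/-- addition of two numbers in carry-save form (first word `0 ≤ n < B`, second word `B ≤ n < 2B`) -/
def addN (B : ℕ) (P Q : ℕ → Fm) (n : ℕ) : Fm :=
  if n < B then
    s3 (s3 P (fun i => P (B + i)) Q) (c3 P (fun i => P (B + i)) Q) (fun i => Q (B + i)) n
  else
    c3 (s3 P (fun i => P (B + i)) Q) (c3 P (fun i => P (B + i)) Q) (fun i => Q (B + i)) (n - B)

/-- the number with one bit -/
def leafN (A : Fm) (n : ℕ) : Fm := if n = 0 then A else and A (neg A)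

/-- the sum of `2 ^ l` bits -/
def treeN (B : ℕ) : ℕ → (ℕ → Fm) → ℕ → Fm
  | 0, g => leafN (g 0)
  | l + 1, g => addN B (treeN B l g) (treeN B l fun i => g (i + 2 ^ l))

/-! ### substitution -/

theorem s3_subst (σ : ℕ → Fm) (x y z : ℕ → Fm) (i : ℕ) : (s3 x y z i).subst σ =
    s3 (fun i => (x i).subst σ) (fun i => (y i).subst σ) (fun i => (z i).subst σ) i := by
  simp [s3, x3, xr, subst]

theorem c3_subst (σ : ℕ → Fm) (x y z : ℕ → Fm) (i : ℕ) : (c3 x y z i).subst σ =
    c3 (fun i => (x i).subst σ) (fun i => (y i).subst σ) (fun i => (z i).subst σ) i := by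
  cases i with
  | zero => simp [c3, subst]
  | succ i => simp [c3, mj, subst]

theorem addN_subst (σ : ℕ → Fm) (B : ℕ) (P Q : ℕ → Fm) (n : ℕ) : (addN B P Q n).subst σ =
    addN B (fun i => (P i).subst σ) (fun i => (Q i).subst σ) n := by
  unfold addN
  split_ifs
  · rw [s3_subst]
    simp only [s3_subst, c3_subst]
  · rw [c3_subst]
    simp only [s3_subst, c3_subst]

theorem leafN_subst (σ : ℕ → Fm) (A : Fm) (n : ℕ) : (leafN A n).subst σ = leafN (A.subst σ) n := by
  unfold leafN
  split_ifs <;> simp [subst]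

theorem treeN_subst (σ : ℕ → Fm) (B : ℕ) : ∀ (l : ℕ) (g : ℕ → Fm) (n : ℕ),
    (treeN B l g n).subst σ = treeN B l (fun i => (g i).subst σ) n
  | 0, g, n => by
    simp only [treeN, leafN_subst]
  | l + 1, g, n => by
    simp only [treeN, addN_subst]
    congr 1
    · funext i
      exact treeN_subst σ B l g i
    · funext i
      exact treeN_subst σ B l _ i

/-! ### congruence -/

theorem addN_congr {B : ℕ} (hB : 0 < B) {P P' Q Q' : ℕ → Fm} (hP : ∀ n < 2 * B, P n = P' n)
    (hQ : ∀ n < 2 * B, Q n = Q' n) : ∀ n < 2 * B, addN B P Q n = addN B P' Q' n := by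
  intro n hn
  have hs : ∀ i < B, s3 P (fun i => P (B + i)) Q i = s3 P' (fun i => P' (B + i)) Q' i := by
    intro i hi
    simp only [s3]
    rw [hP i (by omega), hP (B + i) (by omega), hQ i (by omega)]
  have hc : ∀ i < B, c3 P (fun i => P (B + i)) Q i = c3 P' (fun i => P' (B + i)) Q' i := by
    intro i hi
    cases i with
    | zero => simp only [c3]; rw [hP 0 (by omega)]
    | succ i =>
      simp only [c3]
      rw [hP i (by omega), hP (B + i) (by omega), hQ i (by omega)]
  unfold addN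
  split_ifs with h
  · simp only [s3] at hs ⊢
    rw [hs n h, hc n h, hQ (B + n) (by omega)]
  · obtain ⟨m, hm⟩ : ∃ m, n - B = m := ⟨_, rfl⟩
    rw [hm]
    cases m with
    | zero =>
      simp only [c3]
      rw [hs 0 hB]
    | succ i =>
      have hi : i < B := by omega
      simp only [c3]
      rw [hs i hi]
      simp only [c3] at hc
      rw [hc i hi, hQ (B + i) (by omega)]

/-! ### size -/

theorem s3_size {x y z : ℕ → Fm} {S : ℕ} (hS : 1 ≤ S) (hx : ∀ n, (x n).size ≤ S)
    (hy : ∀ n, (y n).size ≤ S) (hz : ∀ n, (z n).size ≤ S) (n : ℕ) : (s3 x y z n).size ≤ 22 * S := by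
  have h1 := hx n
  have h2 := hy n
  have h3 := hz n
  simp only [s3, x3, xr, size]
  omega

theorem c3_size {x y z : ℕ → Fm} {S : ℕ} (hS : 1 ≤ S) (hx : ∀ n, (x n).size ≤ S)
    (hy : ∀ n, (y n).size ≤ S) (hz : ∀ n, (z n).size ≤ S) (n : ℕ) : (c3 x y z n).size ≤ 22 * S := by
  cases n with
  | zero =>
    have h1 := hx 0
    simp only [c3, size]
    omega
  | succ n =>
    have h1 := hx n
    have h2 := hy n
    have h3 := hz n
    simp only [c3, mj, size]
    omega

theorem addN_size {B : ℕ} {P Q : ℕ → Fm} {S : ℕ} (hS : 1 ≤ S) (hP : ∀ n, (P n).size ≤ S)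
    (hQ : ∀ n, (Q n).size ≤ S) (n : ℕ) : (addN B P Q n).size ≤ 484 * S := by
  have h1 : ∀ n, (s3 P (fun i => P (B + i)) Q n).size ≤ 22 * S :=
    s3_size hS hP (fun n => hP _) hQ
  have h2 : ∀ n, (c3 P (fun i => P (B + i)) Q n).size ≤ 22 * S :=
    c3_size hS hP (fun n => hP _) hQ
  have h3 : ∀ n, (Q (B + n)).size ≤ 22 * S := fun n => (hQ _).trans (by omega)
  unfold addN
  split_ifs
  · have := s3_size (S := 22 * S) (by omega) h1 h2 h3 n
    omega
  · have := c3_size (S := 22 * S) (by omega) h1 h2 h3 (n - B)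
    omega

theorem treeN_size (B : ℕ) {S : ℕ} (hS : 1 ≤ S) : ∀ (l : ℕ) (g : ℕ → Fm), (∀ i, (g i).size ≤ S) →
    ∀ n, (treeN B l g n).size ≤ 4 * S * 484 ^ l
  | 0, g, hg, n => by
    have := hg 0
    simp only [treeN, leafN, pow_zero, mul_one]
    split_ifs
    · omega
    · simp only [size]
      omega
  | l + 1, g, hg, n => by
    have h1 := treeN_size B hS l g hg
    have h2 := treeN_size B hS l (fun i => g (i + 2 ^ l)) (fun i => hg _)
    have h3 : 1 ≤ 4 * S * 484 ^ l := Nat.mul_pos (by omega) (by positivity)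
    have h4 := addN_size (B := B) h3 h1 h2 n
    simp only [treeN]
    refine h4.trans (le_of_eq ?_)
    rw [pow_succ]
    ring

/-! ### variables -/

theorem s3_vars {x y z : ℕ → Fm} {n m : ℕ} (h : m ∈ (s3 x y z n).vars) :
    m ∈ (x n).vars ∨ m ∈ (y n).vars ∨ m ∈ (z n).vars := by
  simp only [s3, x3, xr, vars, Finset.mem_union] at h
  tauto

theorem c3_vars {x y z : ℕ → Fm} {n m : ℕ} (h : m ∈ (c3 x y z n).vars) :
    ∃ i ≤ n, m ∈ (x i).vars ∨ m ∈ (y i).vars ∨ m ∈ (z i).vars := by
  cases n with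
  | zero =>
    simp only [c3, vars, Finset.mem_union] at h
    exact ⟨0, le_rfl, by tauto⟩
  | succ n =>
    simp only [c3, mj, vars, Finset.mem_union] at h
    exact ⟨n, by omega, by tauto⟩

theorem addN_vars {B : ℕ} {P Q : ℕ → Fm} {n m : ℕ} (hn : n < 2 * B)
    (h : m ∈ (addN B P Q n).vars) : ∃ i < 2 * B, m ∈ (P i).vars ∨ m ∈ (Q i).vars := by
  have h1 : ∀ i < B, m ∈ (s3 P (fun i => P (B + i)) Q i).vars →
      ∃ i < 2 * B, m ∈ (P i).vars ∨ m ∈ (Q i).vars := by
    intro i hi h
    rcases s3_vars h with h | h | h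
    · exact ⟨i, by omega, Or.inl h⟩
    · exact ⟨B + i, by omega, Or.inl h⟩
    · exact ⟨i, by omega, Or.inr h⟩
  have h2 : ∀ i < B, m ∈ (c3 P (fun i => P (B + i)) Q i).vars →
      ∃ i < 2 * B, m ∈ (P i).vars ∨ m ∈ (Q i).vars := by
    intro i hi h
    obtain ⟨j, hj, h⟩ := c3_vars h
    rcases h with h | h | h
    · exact ⟨j, by omega, Or.inl h⟩
    · exact ⟨B + j, by omega, Or.inl h⟩
    · exact ⟨j, by omega, Or.inr h⟩
  unfold addN at h
  split_ifs at h with hB
  · rcases s3_vars h with h | h | h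
    · exact h1 n hB h
    · exact h2 n hB h
    · exact ⟨B + n, by omega, Or.inr h⟩
  · obtain ⟨j, hj, h⟩ := c3_vars h
    have hj' : j < B := by omega
    rcases h with h | h | h
    · exact h1 j hj' h
    · exact h2 j hj' h
    · exact ⟨B + j, by omega, Or.inr h⟩

theorem treeN_vars {B : ℕ} {m : ℕ} : ∀ (l : ℕ) (g : ℕ → Fm) {n : ℕ}, n < 2 * B →
    m ∈ (treeN B l g n).vars → ∃ i < 2 ^ l, m ∈ (g i).vars
  | 0, g, n, hn, h => by
    simp only [treeN, leafN] at h
    split_ifs at h
    · exact ⟨0, by simp, h⟩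
    · simp only [vars, Finset.mem_union] at h
      exact ⟨0, by simp, by tauto⟩
  | l + 1, g, n, hn, h => by
    simp only [treeN] at h
    obtain ⟨i, hi, h⟩ := addN_vars hn h
    rcases h with h | h
    · obtain ⟨j, hj, h⟩ := treeN_vars l g hi h
      exact ⟨j, by rw [pow_succ]; omega, h⟩
    · obtain ⟨j, hj, h⟩ := treeN_vars l _ hi h
      exact ⟨j + 2 ^ l, by rw [pow_succ]; omega, h⟩

/-! ### semantics -/

open Classical in
/-- the truth value as a number -/
noncomputable def ind (p : Prop) : ℕ := if p then 1 else 0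

theorem ind_pos {p : Prop} (h : p) : ind p = 1 := by simp [ind, h]

theorem ind_neg {p : Prop} (h : ¬ p) : ind p = 0 := by simp [ind, h]

theorem ind_congr {p q : Prop} (h : p ↔ q) : ind p = ind q := by rw [propext h]

/-- the value of a word of `B` bits -/
noncomputable def num (B : ℕ) (u : ℕ → Prop) : ℕ := ∑ i ∈ Finset.range B, 2 ^ i * ind (u i)

/-- the value of a number in carry-save form -/
noncomputable def valP (B : ℕ) (u : ℕ → Prop) : ℕ := num B u + num B (fun i => u (B + i))

theorem num_congr {B : ℕ} {u w : ℕ → Prop} (h : ∀ i < B, (u i ↔ w i)) : num B u = num B w := by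
  unfold num
  refine Finset.sum_congr rfl fun i hi => ?_
  rw [ind_congr (h i (Finset.mem_range.1 hi))]

theorem valP_congr {B : ℕ} {u w : ℕ → Prop} (h : ∀ i < 2 * B, (u i ↔ w i)) :
    valP B u = valP B w := by
  unfold valP
  rw [num_congr fun i hi => h i (by omega),
    num_congr (u := fun i => u (B + i)) (w := fun i => w (B + i)) fun i hi => h (B + i) (by omega)]

theorem three2 (x y z : ℕ → Fm) (v : ℕ → Prop) : ∀ B : ℕ,
    num B (fun i => (s3 x y z i).eval v) + num B (fun i => (c3 x y z i).eval v) +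
      2 ^ B * ind ((c3 x y z B).eval v) =
    num B (fun i => (x i).eval v) + num B (fun i => (y i).eval v) + num B (fun i => (z i).eval v)
  | 0 => by
    have : ¬ (c3 x y z 0).eval v := by simp [c3, eval]
    simp [num, ind_neg this]
  | B + 1 => by
    have ih := three2 x y z v B
    simp only [num, Finset.sum_range_succ] at ih ⊢
    have h1 : ind ((s3 x y z B).eval v) + 2 * ind ((c3 x y z (B + 1)).eval v) =
        ind ((x B).eval v) + ind ((y B).eval v) + ind ((z B).eval v) := by
      by_cases hx : (x B).eval v <;> by_cases hy : (y B).eval v <;> by_cases hz : (z B).eval v <;>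
        simp [s3, x3, xr, c3, mj, eval, ind, hx, hy, hz]
    have h2 : 2 ^ B * ind ((s3 x y z B).eval v) + 2 ^ (B + 1) * ind ((c3 x y z (B + 1)).eval v) =
        2 ^ B * ind ((x B).eval v) + 2 ^ B * ind ((y B).eval v) + 2 ^ B * ind ((z B).eval v) := by
      rw [pow_succ, ← mul_add, ← mul_add, ← h1]
      ring
    omega

theorem val_add (B : ℕ) (P Q : ℕ → Fm) (v : ℕ → Prop) :
    valP B (fun n => (addN B P Q n).eval v) ≡
      valP B (fun n => (P n).eval v) + valP B (fun n => (Q n).eval v) [MOD 2 ^ B] := by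
  have h1 := three2 P (fun i => P (B + i)) Q v B
  have h2 := three2 (s3 P (fun i => P (B + i)) Q) (c3 P (fun i => P (B + i)) Q)
    (fun i => Q (B + i)) v B
  have e1 : num B (fun n => (addN B P Q n).eval v) =
      num B (fun n => (s3 (s3 P (fun i => P (B + i)) Q) (c3 P (fun i => P (B + i)) Q)
        (fun i => Q (B + i)) n).eval v) := by
    apply num_congr
    intro i hi
    simp only [addN, if_pos hi]
  have e2 : num B (fun n => (addN B P Q (B + n)).eval v) =
      num B (fun n => (c3 (s3 P (fun i => P (B + i)) Q) (c3 P (fun i => P (B + i)) Q)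
        (fun i => Q (B + i)) n).eval v) := by
    apply num_congr
    intro i hi
    have h3 : ¬ (B + i < B) := by omega
    simp only [addN, if_neg h3, Nat.add_sub_cancel_left]
  unfold valP
  rw [e1, e2]
  generalize ind ((c3 P (fun i => P (B + i)) Q B).eval v) = t1 at h1
  generalize ind ((c3 (s3 P (fun i => P (B + i)) Q) (c3 P (fun i => P (B + i)) Q)
        (fun i => Q (B + i)) B).eval v) = t2 at h2
  set a := num B (fun n => (s3 (s3 P (fun i => P (B + i)) Q) (c3 P (fun i => P (B + i)) Q)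
        (fun i => Q (B + i)) n).eval v) +
      num B (fun n => (c3 (s3 P (fun i => P (B + i)) Q) (c3 P (fun i => P (B + i)) Q)
        (fun i => Q (B + i)) n).eval v) with ha
  have h3 : a + 2 ^ B * (t1 + t2) = (num B (fun n => (P n).eval v) +
      num B (fun n => (P (B + n)).eval v)) + (num B (fun n => (Q n).eval v) +
      num B (fun n => (Q (B + n)).eval v)) := by
    rw [mul_add]
    omega
  rw [← h3]
  unfold Nat.ModEq
  rw [Nat.add_mul_mod_self_left]

theorem val_leaf {B : ℕ} (hB : 0 < B) (A : Fm) (v : ℕ → Prop) :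
    valP B (fun n => (leafN A n).eval v) = ind (A.eval v) := by
  unfold valP num
  have h1 : ∑ i ∈ Finset.range B, 2 ^ i * ind ((leafN A (B + i)).eval v) = 0 := by
    apply Finset.sum_eq_zero
    intro i _
    have : ¬ (leafN A (B + i)).eval v := by
      simp [leafN, hB.ne', eval]
    rw [ind_neg this, mul_zero]
  have h2 : ∑ i ∈ Finset.range B, 2 ^ i * ind ((leafN A i).eval v) = ind (A.eval v) := by
    rw [Finset.sum_eq_single_of_mem 0 (Finset.mem_range.2 hB)]
    · simp [leafN]
    · intro i _ hi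
      have : ¬ (leafN A i).eval v := by
        simp [leafN, hi, eval]
      rw [ind_neg this, mul_zero]
  rw [h1, h2, add_zero]

theorem val_tree {B : ℕ} (hB : 0 < B) (v : ℕ → Prop) : ∀ (l : ℕ) (g : ℕ → Fm),
    valP B (fun n => (treeN B l g n).eval v) ≡
      ∑ i ∈ Finset.range (2 ^ l), ind ((g i).eval v) [MOD 2 ^ B]
  | 0, g => by
    simp only [treeN]
    rw [val_leaf hB]
    simp only [pow_zero, Finset.range_one, Finset.sum_singleton]
    rfl
  | l + 1, g => by
    have h1 := val_tree hB v l g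
    have h2 := val_tree hB v l (fun i => g (i + 2 ^ l))
    simp only [treeN]
    refine (val_add B _ _ v).trans ((h1.add h2).trans ?_)
    have h3 : ∑ i ∈ Finset.range (2 ^ (l + 1)), ind ((g i).eval v) =
        ∑ i ∈ Finset.range (2 ^ l), ind ((g i).eval v) +
          ∑ i ∈ Finset.range (2 ^ l), ind ((g (i + 2 ^ l)).eval v) := by
      rw [pow_succ, mul_two, Finset.sum_range_add]
      simp only [Nat.add_comm _ (2 ^ l)]
    rw [h3]

theorem sum_ind (n : ℕ) (p : ℕ → Prop) :
    ∑ i ∈ Finset.range n, ind (p i) = {i : ℕ | i < n ∧ p i}.ncard := by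
  classical
  have h1 : {i : ℕ | i < n ∧ p i} = ((Finset.range n).filter p : Finset ℕ) := by
    ext i; simp
  rw [h1, Set.ncard_coe_finset, Finset.card_filter]
  refine Finset.sum_congr rfl fun i _ => ?_
  by_cases h : p i
  · rw [ind_pos h, if_pos h]
  · rw [ind_neg h, if_neg h]

end Pool.Agent.Y287.KL
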