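import Pool.Agent.Y528.KL.Defs
import Pool.Agent.H586P.T_tt

/-!
# Counting formulas with short Frege proofs: tools
-/

set_option autoImplicit false

namespace Pool.Agent.Y287.KL

open Pool.Agent.H555R2.PF Pool.Agent.H555R2.PF.Fm Pool.Agent.TH677.EF Pool.Agent.Y528.KL

theorem fr_of_fo {F : List Rule} {L : List Fm} (h : Pool.Agent.H586P.FO.FProof F L) : Fr F L := by
  induction h with
  | nil => exact Fr.nil
  | rule _ hB ih => exact Fr.rule ih hB

theorem pf_le {F : List Rule} {A : Fm} {m n : ℕ} (h : Pf F A m) (hmn : m ≤ n) : Pf F A n := by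
  obtain ⟨D, h1, h2, h3⟩ := h
  exact ⟨D, h1, h2, h3.trans hmn⟩

theorem pf_size {F : List Rule} {A : Fm} {m : ℕ} (h : Pf F A m) : A.size ≤ m := by
  obtain ⟨D, _, h2, h3⟩ := h
  exact (size_le_psize h2).trans h3

theorem pf_subst {F : List Rule} {A : Fm} {m M : ℕ} {σ : ℕ → Fm} (h : Pf F A m) (hM : 1 ≤ M)
    (hσ : ∀ n, (σ n).size ≤ M) : Pf F (A.subst σ) (m * M) := by
  obtain ⟨D, h1, h2, h3⟩ := h
  exact ⟨D.map (Fm.subst σ), h1.map σ, List.mem_map.2 ⟨A, h2, rfl⟩,
    (psize_map_le hM hσ D).trans (Nat.mul_le_mul_right _ h3)⟩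

theorem pf_tt (F : List Rule) (hF : IsFrege F) : ∃ c : ℕ, ∀ (C : Fm) (s k : ℕ), (∀ v, C.eval v) →
    C.size ≤ s → (∀ x ∈ C.vars, x < k) → Pf F C (c * s ^ 4 * 2 ^ k) := by
  obtain ⟨c, hc⟩ := Pool.Agent.H586P.T_tt.t_tt F hF
  refine ⟨c, fun C s k hC hs hk => ?_⟩
  obtain ⟨D, h1, h2, h3⟩ := hc C hC [] Pool.Agent.H586P.FO.FProof.nil (by simp)
  rw [List.append_nil] at h1 h2
  refine ⟨D, fr_of_fo h1, h2 C (by simp), h3.trans ?_⟩
  have h4 : C.vars.card ≤ k := by
    have : C.vars ⊆ Finset.range k := fun x hx => Finset.mem_range.2 (hk x hx)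
    simpa using Finset.card_le_card this
  exact Nat.mul_le_mul (Nat.mul_le_mul_left _ (Nat.pow_le_pow_left hs 4))
    (Nat.pow_le_pow_right (by norm_num) h4)

theorem pf_mp (F : List Rule) (hF : IsFrege F) : ∃ c : ℕ, 1 ≤ c ∧ ∀ (A B : Fm) (m n : ℕ),
    Pf F A m → Pf F (imp A B) n → Pf F B (m + c * n) := by
  obtain ⟨c, hc⟩ := schemaC hF [var 0, imp (var 0) (var 1)] (var 1) (by
    intro v h; simp [eval] at h ⊢; tauto)
  refine ⟨c + 1, by omega, fun A B m n hA hB => ?_⟩
  obtain ⟨D, h1, h2, h3⟩ := hA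
  have hs := pf_size hB
  obtain ⟨D', h1', h2', h3'⟩ := hB
  simp only [size] at hs
  obtain ⟨E, e1, e2, e3⟩ := hc [A, B] n (by omega) (by
    intro X hX; simp at hX; rcases hX with rfl | rfl
    · omega
    · omega) {X | X ∈ D' ++ D} (by
      intro X hX
      simp only [List.mem_cons, List.not_mem_nil, or_false] at hX
      rcases hX with rfl | rfl
      · simp [Fm.subst, asg, h2]
      · simp [Fm.subst, asg, h2']) (D' ++ D) (h1.append h1') (fun X hX => hX)
  refine ⟨E ++ (D' ++ D), e1, e2 B (by simp [Fm.subst, asg]), ?_⟩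
  rw [psize_append, psize_append]
  nlinarith

/-! ### brute force formulas -/

open Classical in
/-- the disjunctive normal form of a predicate of the first `n` variables -/
noncomputable def bf : ℕ → ((ℕ → Prop) → Prop) → Fm
  | 0, R => if R (fun _ => False) then imp (var 0) (var 0) else neg (imp (var 0) (var 0))
  | n + 1, R => or (and (var n) (bf n fun v => R (Function.update v n True)))
      (and (neg (var n)) (bf n fun v => R (Function.update v n False)))

theorem bf_size : ∀ (n : ℕ) (R : (ℕ → Prop) → Prop), (bf n R).size + 6 ≤ 10 * 2 ^ n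
  | 0, R => by
    unfold bf
    split_ifs <;> simp [size]
  | n + 1, R => by
    have h1 := bf_size n fun v => R (Function.update v n True)
    have h2 := bf_size n fun v => R (Function.update v n False)
    simp only [bf, size, pow_succ]
    omega

theorem bf_vars : ∀ (n : ℕ) (R : (ℕ → Prop) → Prop), ∀ x ∈ (bf n R).vars, x < n ∨ x = 0
  | 0, R => by
    intro x hx
    unfold bf at hx
    split_ifs at hx
    · simp [vars] at hx
      exact Or.inr hx
    · simp [vars] at hx
      exact Or.inr hx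
  | n + 1, R => by
    intro x hx
    simp only [bf, vars, Finset.mem_union, Finset.mem_singleton] at hx
    rcases hx with (hx | hx) | (hx | hx)
    · left; omega
    · rcases bf_vars n _ x hx with h | h
      · left; omega
      · right; exact h
    · left; omega
    · rcases bf_vars n _ x hx with h | h
      · left; omega
      · right; exact h

theorem bf_eval : ∀ (n : ℕ) (R : (ℕ → Prop) → Prop) (v : ℕ → Prop),
    (bf n R).eval v ↔ R (fun i => i < n ∧ v i)
  | 0, R, v => by
    have : (fun i => i < 0 ∧ v i) = fun _ => False := by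
      funext i; simp
    rw [this]
    unfold bf
    split_ifs with h
    · simp [eval, h]
    · simp [eval, h]
  | n + 1, R, v => by
    simp only [bf, eval]
    rw [bf_eval n, bf_eval n]
    by_cases hv : v n
    · have : Function.update (fun i => i < n ∧ v i) n True = fun i => i < n + 1 ∧ v i := by
        funext i
        by_cases hi : i = n
        · subst hi
          simp [hv]
        · rw [Function.update_of_ne hi]
          apply propext
          constructor
          · rintro ⟨h1, h2⟩; exact ⟨by omega, h2⟩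
          · rintro ⟨h1, h2⟩; exact ⟨by omega, h2⟩
      rw [this]
      simp [hv]
    · have : Function.update (fun i => i < n ∧ v i) n False = fun i => i < n + 1 ∧ v i := by
        funext i
        by_cases hi : i = n
        · subst hi
          simp [hv]
        · rw [Function.update_of_ne hi]
          apply propext
          constructor
          · rintro ⟨h1, h2⟩; exact ⟨by omega, h2⟩
          · rintro ⟨h1, h2⟩; exact ⟨by omega, h2⟩
      rw [this]
      simp [hv]

theorem vars_subst (A : Fm) (σ : ℕ → Fm) (x : ℕ) :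
    x ∈ (A.subst σ).vars ↔ ∃ n ∈ A.vars, x ∈ (σ n).vars := by
  induction A with
  | var n => simp [Fm.subst, vars]
  | neg A ih => simpa only [Fm.subst, vars] using ih
  | and A B iA iB =>
    simp only [Fm.subst, vars, Finset.mem_union, iA, iB]
    constructor
    · rintro (⟨n, h1, h2⟩ | ⟨n, h1, h2⟩)
      · exact ⟨n, Or.inl h1, h2⟩
      · exact ⟨n, Or.inr h1, h2⟩
    · rintro ⟨n, h1 | h1, h2⟩
      · exact Or.inl ⟨n, h1, h2⟩
      · exact Or.inr ⟨n, h1, h2⟩
  | or A B iA iB =>
    simp only [Fm.subst, vars, Finset.mem_union, iA, iB]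
    constructor
    · rintro (⟨n, h1, h2⟩ | ⟨n, h1, h2⟩)
      · exact ⟨n, Or.inl h1, h2⟩
      · exact ⟨n, Or.inr h1, h2⟩
    · rintro ⟨n, h1 | h1, h2⟩
      · exact Or.inl ⟨n, h1, h2⟩
      · exact Or.inr ⟨n, h1, h2⟩
  | imp A B iA iB =>
    simp only [Fm.subst, vars, Finset.mem_union, iA, iB]
    constructor
    · rintro (⟨n, h1, h2⟩ | ⟨n, h1, h2⟩)
      · exact ⟨n, Or.inl h1, h2⟩
      · exact ⟨n, Or.inr h1, h2⟩
    · rintro ⟨n, h1 | h1, h2⟩
      · exact Or.inl ⟨n, h1, h2⟩
      · exact Or.inr ⟨n, h1, h2⟩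

/-! ### polynomial bounds -/

/-- `f L ≤ 2 ^ (e (L + 1))` for some `e` -/
def PB (f : ℕ → ℕ) : Prop := ∃ e : ℕ, ∀ L, f L ≤ 2 ^ (e * (L + 1))

theorem PB.const (c : ℕ) : PB fun _ => c := by
  refine ⟨c, fun L => ?_⟩
  have h1 : c ≤ 2 ^ c := Nat.lt_two_pow_self.le
  exact h1.trans (Nat.pow_le_pow_right (by norm_num) (Nat.le_mul_of_pos_right _ (by omega)))

theorem PB.mul {f g : ℕ → ℕ} (hf : PB f) (hg : PB g) : PB fun L => f L * g L := by
  obtain ⟨a, ha⟩ := hf
  obtain ⟨b, hb⟩ := hg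
  refine ⟨a + b, fun L => ?_⟩
  rw [add_mul, pow_add]
  exact Nat.mul_le_mul (ha L) (hb L)

theorem PB.pow {f : ℕ → ℕ} (hf : PB f) : ∀ k : ℕ, PB fun L => f L ^ k
  | 0 => by simpa using PB.const 1
  | k + 1 => by
    simp only [pow_succ]
    exact (hf.pow k).mul hf

theorem PB.add {f g : ℕ → ℕ} (hf : PB f) (hg : PB g) : PB fun L => f L + g L := by
  obtain ⟨a, ha⟩ := hf
  obtain ⟨b, hb⟩ := hg
  refine ⟨a + b + 1, fun L => ?_⟩
  have h1 := ha L
  have h2 := hb L
  have h3 : 2 ^ (a * (L + 1)) ≤ 2 ^ ((a + b) * (L + 1)) :=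
    Nat.pow_le_pow_right (by norm_num) (by nlinarith)
  have h4 : 2 ^ (b * (L + 1)) ≤ 2 ^ ((a + b) * (L + 1)) :=
    Nat.pow_le_pow_right (by norm_num) (by nlinarith)
  have h5 : 2 ^ ((a + b) * (L + 1) + 1) ≤ 2 ^ ((a + b + 1) * (L + 1)) :=
    Nat.pow_le_pow_right (by norm_num) (by nlinarith)
  rw [pow_succ] at h5
  show f L + g L ≤ _
  omega

theorem PB.exp (a : ℕ) : PB fun L => a ^ L := by
  refine ⟨a, fun L => ?_⟩
  have h1 : a ≤ 2 ^ a := Nat.lt_two_pow_self.le
  calc a ^ L ≤ (2 ^ a) ^ L := Nat.pow_le_pow_left h1 L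
    _ = 2 ^ (a * L) := by rw [pow_mul]
    _ ≤ _ := Nat.pow_le_pow_right (by norm_num) (by nlinarith)

theorem PB.exp' (k : ℕ) : PB fun L => 2 ^ (k * (L + 1)) := ⟨k, fun _ => le_rfl⟩

end Pool.Agent.Y287.KL
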